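import Pool.Agent.H68.GCSMain
import Pool.Agent.H68.GCSExists

/-!
# Back-and-forth equivalent groups have elementarily equivalent universal group C*-algebras

If Duplicator wins the `n`-round back-and-forth game with tuples between the groups `G` and `H`
for every `n`, then `C*(G)` and `C*(H)` are elementarily equivalent as C*-algebras in continuous
first-order logic.

Outline of the proof. The universal norm of an element of `ℂ[G]` only depends on the subgroup
generated by its support, because a unitary representation of a subgroup can be induced to the
whole group (`univNorm_mapDomain`). Hence, if two finite tuples of `G` and `H` satisfy the same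
group words, then corresponding linear combinations of words in them have the same universal norms
(`univNorm_eq_of_ker`). As `ℂ[G]` is dense in `C*(G)` and the values of formulas are uniformly
continuous on bounded sets (`CFormula.good`), a winning strategy for the game with tuples between
`G` and `H` gives, by induction on formulas, the equality of the values of all sentences of
quantifier rank at most `n` (`val_eq`).
-/

namespace Pool.Agent.Results.MP_a32272_lc.UniversalCStarBF

open Pool.Agent.H68.GCS

universe u v w z

/-- The universal group C*-algebra exists (it is constructed in `GCSExists` as the completion of
`ℂ[G]` in the universal norm). -/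
theorem exists_model (G : Type u) [Group G] :
    ∃ (A : Type u) (_ : CStarAlgebra A) (π : G →* unitary A), IsUnivGroupCStar π :=
  ⟨GroupCStar G, inferInstance, GroupCStar.unitaryMap G, (GroupCStar.model G).is⟩

/-- For all groups `G`, `H` with `G ≡ᵇᶠ_ω H`, the universal group C*-algebras `A = C*(G)` and
`B = C*(H)` are elementarily equivalent. -/
theorem result (G : Type u) (H : Type v) [Group G] [Group H] (h : BackAndForthEquiv G H)
    (A : Type w) (B : Type z) [CStarAlgebra A] [CStarAlgebra B]
    (π : G →* unitary A) (σ : H →* unitary B)
    (hA : IsUnivGroupCStar π) (hB : IsUnivGroupCStar σ) :
    ElementarilyEquivalent A B :=
  main h hA.model hB.model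

end Pool.Agent.Results.MP_a32272_lc.UniversalCStarBF
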